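import Pool.Agent.N794.CG.Aut
import Pool.Agent.N794.CG.Quad

/-!
# The mean size of the torsion of the class groups of quadratic fields over automatic sets

From Mathlib: `𝓞 K`, `ClassGroup`, `NumberField.discr`: the ring of integers, the class group and the discriminant; `DFA`:
deterministic automata; `Nat.digits`: the digits, the least significant first.

Method: the members of an automatic set of more than polylogarithmic size are dominated by random integers whose exponential sums
have a decay (starting files `Pool.Agent.H491R4.AF2`, `Pool.Agent.N794.CG.Aut`); this is used to show that for almost all members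
`v` many small primes split in `ℚ(√(j v))`, with a high power saving in the probability of the exceptions at each scale (starting
files `Pool.Agent.N794.CG.Mom` and `Pool.Agent.N794.CG.Quad`); then the argument of Ellenberg and Venkatesh.
-/

set_option autoImplicit false

namespace Pool.Agent.Results.MP_16912e_nt.AutomaticFamilies

open Finset NumberField Filter

open Classical in
/-- The integers `0 ≤ v < N` whose digits in base `b` (the least significant first) are accepted by the finite automaton `M`. -/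
noncomputable def accepted {σ : Type} (b : ℕ) (M : DFA ℕ σ) (N : ℕ) : Finset ℕ :=
  (range N).filter (fun v => Nat.digits b v ∈ M.accepts)

lemma accepted_eq {σ : Type} (b : ℕ) (M : DFA ℕ σ) (N : ℕ) : accepted b M N = Pool.Agent.N794.CG.mem b M N := by
  unfold accepted Pool.Agent.N794.CG.mem
  congr!

/-- `|Cl(K)[l]|`: the number of the ideal classes of `K` killed by `l`. -/
noncomputable def tors (K : Type) [Field K] [NumberField K] (l : ℕ) : ℕ := Nat.card {x : ClassGroup (𝓞 K) // x ^ l = 1}

open Classical in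
/-- Let `A` be the set of the integers `v ≥ 0` whose digits in base `b ≥ 2` are accepted by a finite automaton `M`, and suppose that
`A` has more than polylogarithmic size: for every `m` there are infinitely many `N` such that more than `(log N) ^ m` elements of `A`
are smaller than `N` (such sets may have as few as `N ^ ε` elements below `N`, with arbitrarily small `ε > 0`). Let `r ≥ 1`. There is
`δ > 0` such that for `κ ≠ 0` and `U`, `V` there are `B`, `N₀` such that the following holds for all `N ≥ N₀`, all `c`, all integers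
`j ≠ 0` with `|j| ≤ (log N) ^ U`, all `l` with `1 ≤ l ≤ (log N) ^ U`, and all `Y ≥ 1`.

Let `K_n = ℚ(√(j n))` be quadratic fields, real or imaginary, with discriminant of absolute value at most `Y`, for the
integers `n` in a set `S` of integers of absolute value at most `N ^ V`. Then the mean over the members `v < N` of `A` of the power
`|Cl(K_n)[l]| ^ r`, `n = c + κ v` (with `0` if `n` is not in `S`), is at most
`((log N) ^ B Y ^ (1 / 2) max (Y ^ (-1 / (2 l)), N ^ (- δ))) ^ r`. For `r = 1` and a prime `l` this is the average of the question,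
with the exponent `1 / 2 - 1 / (2 l)`, over the family. -/
theorem result {σ : Type} [Fintype σ] (b : ℕ) (hb : 2 ≤ b) (M : DFA ℕ σ)
    (hM : ∀ m : ℕ, ∃ᶠ N : ℕ in atTop, Real.log N ^ m < ((accepted b M N).card : ℝ)) (r : ℕ) (hr : 1 ≤ r) :
    ∃ δ : ℝ, 0 < δ ∧ ∀ κ : ℤ, κ ≠ 0 → ∀ U V : ℕ, ∃ B N₀ : ℕ, ∀ N : ℕ, N₀ ≤ N →
    ∀ c j : ℤ, j ≠ 0 → |(j : ℝ)| ≤ Real.log N ^ U → ∀ l : ℕ, 1 ≤ l → (l : ℝ) ≤ Real.log N ^ U → ∀ Y : ℝ, 1 ≤ Y →
    ∀ (S : Set ℤ) (K : ℤ → Type) [∀ n, Field (K n)] [∀ n, NumberField (K n)],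
    (∀ n ∈ S, |(n : ℝ)| ≤ (N : ℝ) ^ V ∧ Module.finrank ℚ (K n) = 2 ∧ |(discr (K n) : ℝ)| ≤ Y ∧
      ∃ α : K n, IntermediateField.adjoin ℚ {α} = ⊤ ∧ α ^ 2 = ((j * n : ℤ) : K n)) →
    ∑ v ∈ accepted b M N, (if c + κ * v ∈ S then (tors (K (c + κ * v)) l : ℝ) ^ r else 0) ≤
      (Real.log N ^ B * (√Y * max (Y ^ (-(1 / (2 * (l : ℝ))))) ((N : ℝ) ^ (-δ)))) ^ r * (accepted b M N).card := by
  simp only [accepted_eq] at hM ⊢
  obtain ⟨B, A, e, N₁, hB, hdom⟩ := Pool.Agent.N794.CG.aut_dom b hb M (by
    intro k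
    simpa only [Pool.Agent.N794.CG.acc_mem] using hM k)
  obtain ⟨W, hW, H⟩ := Pool.Agent.N794.CG.quad_gen B hB A (1 / 2) (by norm_num) (by norm_num) r hr
  have hWr : (0 : ℝ) < W := by exact_mod_cast hW
  refine ⟨1 / W, by positivity, fun κ hκ U V => ?_⟩
  obtain ⟨B₁, k₀, J⟩ := H B.factorial κ (Nat.factorial_pos _) hκ (2 * U) V
  refine ⟨2 * B₁ + e, N₁ + 32 + B ^ (k₀ + B), fun N hN c j hj0 hj l hl1 hlT Y hY S K _ _ hS => ?_⟩
  have hN1 : 1 ≤ N := by omega
  have hN32 : 32 ≤ N := by omega
  obtain ⟨k, hk⟩ : ∃ k, k = Nat.log B N + 1 := ⟨_, rfl⟩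
  have hs : Pool.Agent.N794.CG.ScaleB B k N := by rw [hk]; exact Pool.Agent.N794.CG.scaleB_of B hB N hN1
  have hk0 : k₀ + B ≤ k := by
    rw [hk]
    have h1 : B ^ (k₀ + B) ≤ N := by omega
    have := Nat.le_log_of_pow_le (by omega : 1 < B) h1
    omega
  have hL1 : (1 : ℝ) ≤ Real.log N := by
    rw [Real.le_log_iff_exp_le (by exact_mod_cast hN1)]
    have h1 := Real.exp_one_lt_d9
    have h2 : (32 : ℝ) ≤ N := by exact_mod_cast hN32
    linarith
  have hd := hdom N (by omega) κ c
  rw [← hk] at hd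
  have hc1 : ∑ i ∈ Pool.Agent.N794.CG.mem b M N, (1 / ((Pool.Agent.N794.CG.mem b M N).card : ℝ)) ≤ 1 := by
    rw [sum_const, nsmul_eq_mul]
    rcases Nat.eq_zero_or_pos (Pool.Agent.N794.CG.mem b M N).card with h0 | h0
    · rw [h0]; simp
    · have h5 : (0 : ℝ) < (Pool.Agent.N794.CG.mem b M N).card := by exact_mod_cast h0
      rw [mul_one_div, div_self h5.ne']
  have h1 := J k (by omega) j hj0 (hs.int_le hB hN1 (by omega) U j hj) l hl1 (hs.nat_le hB hN1 (by omega) U l hlT) Y hY S K
    (fun n hn => ⟨hs.size_le V n (hS n hn).1, (hS n hn).2⟩) (Real.log N ^ e) ℕ (Pool.Agent.N794.CG.mem b M N)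
    (fun _ => 1 / ((Pool.Agent.N794.CG.mem b M N).card : ℝ)) (fun v => c + κ * (v : ℕ)) (one_le_pow₀ hL1)
    (fun i _ => by positivity) hc1 hd
  have h2 := h1.trans (hs.bound hB hN32 B₁ W r e hr Y (1 / (2 * (l : ℝ))) hY)
  rcases Nat.eq_zero_or_pos (Pool.Agent.N794.CG.mem b M N).card with h0 | h0
  · rw [h0, Nat.cast_zero, mul_zero, card_eq_zero.1 h0, sum_empty]
  · have h5 : (0 : ℝ) < (Pool.Agent.N794.CG.mem b M N).card := by exact_mod_cast h0
    rw [← mul_sum, one_div_mul_eq_div, div_le_iff₀ h5] at h2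
    exact h2

end Pool.Agent.Results.MP_16912e_nt.AutomaticFamilies
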