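import Pool.Agent.N794.CG.Sv
import Pool.Agent.N794.CG.Quad

/-!
# The mean size of the torsion of the class groups of the quadratic fields `ℚ(√(j n))`, `n = c + κ ⌊f(v)⌋`, for functions `f` of
# non-integral index

For instance `n = ⌊v ^ e⌋`, where `e > 0` is not an integer. From Mathlib: `𝓞 K`, `ClassGroup`, `NumberField.discr`: the ring of
integers, the class group and the discriminant; `ContDiffAt ℝ ⊤`: infinitely differentiable at a point; `iteratedDeriv m f`: the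
derivative of order `m`; `⌊y⌋₊`: the integer part of `y`, and `0` for `y < 0`.

Method: the exponential sums over the integer parts of the values have a decay (starting files `Pool.Agent.N193.PS`,
`Pool.Agent.N794.CG.Sv`); this is used to show that for almost all members `v` many small primes split in `ℚ(√(j n))`, with a high
power saving in the number of the exceptions (starting files `Pool.Agent.N794.CG.Mom` and `Pool.Agent.N794.CG.Quad`); then the
argument of Ellenberg and Venkatesh.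
-/

set_option autoImplicit false

namespace Pool.Agent.Results.MP_16912e_nt.NonIntegralFamilies

open Finset NumberField Filter

/-- `|Cl(K)[l]|`: the number of the ideal classes of `K` killed by `l`. -/
noncomputable def tors (K : Type) [Field K] [NumberField K] (l : ℕ) : ℕ := Nat.card {x : ClassGroup (𝓞 K) // x ^ l = 1}

/-- `f` is smoothly varying of index `c`: it is infinitely differentiable and positive for large arguments, and
`t ^ m f⁽ᵐ⁾(t) / f(t) → c (c - 1) ... (c - m + 1)` for every `m`. -/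
def SmoothlyVarying (c : ℝ) (f : ℝ → ℝ) : Prop :=
  (∃ t₀ : ℝ, ∀ t > t₀, ContDiffAt ℝ ((⊤ : ℕ∞) : WithTop ℕ∞) f t ∧ 0 < f t) ∧
  ∀ m : ℕ, Tendsto (fun t => t ^ m * iteratedDeriv m f t / f t) atTop (nhds (∏ i ∈ range m, (c - i)))

open Classical in
/-- Let `f` be a smoothly varying function of index `e > 0`, where `e` is not an integer, for instance `f(t) = t ^ e` or
`f(t) = t ^ e (log t) ^ a`. Let `r ≥ 1`. There is `δ > 0` such that for `κ ≠ 0` and `U`, `V` there are `B`, `X₀` such that the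
following holds for all `N` with `Z = f(N) ≥ X₀`, all `c`, all integers `j ≠ 0` with `|j| ≤ (log Z) ^ U`, all `l` with
`1 ≤ l ≤ (log Z) ^ U`, and all `Y ≥ 1`.

Let `K_n = ℚ(√(j n))` be quadratic fields, real or imaginary, with discriminant of absolute value at most `Y`, for the
integers `n` in a set `S` of integers of absolute value at most `Z ^ V`. Then the mean over `1 ≤ v ≤ N` of the power
`|Cl(K_n)[l]| ^ r`, `n = c + κ ⌊f(v)⌋` (with `0` if `n` is not in `S`), is at most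
`((log Z) ^ B Y ^ (1 / 2) max (Y ^ (-1 / (2 l)), Z ^ (- δ))) ^ r`. For `r = 1` and a prime `l` this is the average of the question,
with the exponent `1 / 2 - 1 / (2 l)`, over the family. -/
theorem result (e : ℝ) (f : ℝ → ℝ) (he : 0 < e) (hn : ∀ m : ℕ, e ≠ m) (hf : SmoothlyVarying e f) (r : ℕ) (hr : 1 ≤ r) :
    ∃ δ : ℝ, 0 < δ ∧ ∀ κ : ℤ, κ ≠ 0 → ∀ U V : ℕ, ∃ B X₀ : ℕ, ∀ N : ℕ, (X₀ : ℝ) ≤ f N →
    ∀ c j : ℤ, j ≠ 0 → |(j : ℝ)| ≤ Real.log (f N) ^ U → ∀ l : ℕ, 1 ≤ l → (l : ℝ) ≤ Real.log (f N) ^ U → ∀ Y : ℝ, 1 ≤ Y →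
    ∀ (S : Set ℤ) (K : ℤ → Type) [∀ n, Field (K n)] [∀ n, NumberField (K n)],
    (∀ n ∈ S, |(n : ℝ)| ≤ f N ^ V ∧ Module.finrank ℚ (K n) = 2 ∧ |(discr (K n) : ℝ)| ≤ Y ∧
      ∃ α : K n, IntermediateField.adjoin ℚ {α} = ⊤ ∧ α ^ 2 = ((j * n : ℤ) : K n)) →
    ∑ v ∈ Icc 1 N, (if c + κ * (⌊f v⌋₊ : ℕ) ∈ S then (tors (K (c + κ * (⌊f v⌋₊ : ℕ))) l : ℝ) ^ r else 0) ≤
      (Real.log (f N) ^ B * (√Y * max (Y ^ (-(1 / (2 * (l : ℝ))))) (f N ^ (-δ)))) ^ r * N := by
  obtain ⟨A, X₁, hdec⟩ := Pool.Agent.N794.CG.sv_dom e f he hn hf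
  obtain ⟨W, hW, H⟩ := Pool.Agent.N794.CG.quad_gen 2 le_rfl A (1 / 2) (by norm_num) (by norm_num) r hr
  have hWr : (0 : ℝ) < W := by exact_mod_cast hW
  refine ⟨1 / W, by positivity, fun κ hκ U V => ?_⟩
  obtain ⟨B₁, k₀, J⟩ := H 1 κ le_rfl hκ U (2 * V)
  refine ⟨2 * B₁ + 2, X₁ + 2 ^ (k₀ + 3), fun N hN c j hj0 hj l hl1 hlT Y hY S K _ _ hS => ?_⟩
  obtain ⟨Z, hZ⟩ : ∃ Z : ℝ, Z = f N := ⟨_, rfl⟩
  rw [← hZ] at hN hj hlT ⊢
  simp only [← hZ] at hS
  push_cast at hN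
  have hX1 : (0 : ℝ) ≤ X₁ := Nat.cast_nonneg _
  have h2k : (1 : ℝ) ≤ 2 ^ (k₀ + 3) := one_le_pow₀ (by norm_num)
  have hZ1 : 1 ≤ Z := by linarith
  obtain ⟨k, hk⟩ : ∃ k, k = Nat.log 2 ⌊Z⌋₊ := ⟨_, rfl⟩
  have hs : Pool.Agent.N794.CG.Scale k Z := by rw [hk]; exact Pool.Agent.N794.CG.scale_of Z hZ1
  have hk0 : k₀ + 3 ≤ k := by
    rw [hk]
    apply Nat.le_log_of_pow_le (by norm_num)
    apply Nat.le_floor
    push_cast
    linarith
  have hN' := hdec N (by rw [← hZ]; linarith)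
  have hd := hN'.2 κ c k (by rw [← hZ]; exact hs.low)
  have hc1 : ∑ i ∈ Icc 1 N, (1 / (N : ℝ)) ≤ 1 := by
    have h5 : (0 : ℝ) < N := by exact_mod_cast hN'.1
    rw [sum_const, Nat.card_Icc, nsmul_eq_mul, Nat.add_sub_cancel, mul_one_div, div_self h5.ne']
  have h1 := J k (by omega) j hj0 (hs.int_le (by omega) U j hj) l hl1 (hs.nat_le (by omega) U l hlT) Y hY S K
    (fun n hn => ⟨by exact_mod_cast hs.size_le (by omega) V n (hS n hn).1, (hS n hn).2⟩) 1 ℕ (Icc 1 N)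
    (fun _ => 1 / (N : ℝ)) (fun v => c + κ * (⌊f v⌋₊ : ℕ)) le_rfl
    (fun i _ => by positivity) hc1 (Pool.Agent.N794.CG.dom_of_decays hd)
  rw [one_mul] at h1
  have h2 := h1.trans (hs.bound (by omega) B₁ W r hW Y (1 / (2 * (l : ℝ))) hY)
  have h5 : (0 : ℝ) < N := by exact_mod_cast hN'.1
  rw [← mul_sum, one_div_mul_eq_div, div_le_iff₀ h5] at h2
  exact h2

end Pool.Agent.Results.MP_16912e_nt.NonIntegralFamilies
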