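import Mathlib
import Pool.Agent.J6H11.PF.End

set_option autoImplicit false

/-!
# Torsion in the class groups of quadratic fields in polynomial families

Let `f` be a polynomial of any degree `d ≥ 1` with integer coefficients which is not a constant times
the square of a polynomial over `ℚ`.  For the quadratic fields `K_t = ℚ(√f(t))` (real or imaginary),
`t` integral, the mean value and the moments of the number of elements of the class group killed by
`l` are bounded with a power saving over the bound by the class number.  Nothing is assumed about the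
square factors of the values `f(t)`.
-/

namespace Pool.Agent.Results.MP_16912e_nt.PolynomialFamilies

open NumberField Polynomial

/-- The number of ideal classes of `K` killed by `l`. -/
noncomputable def tors (K : Type) [Field K] [NumberField K] (l : ℕ) : ℕ :=
  Nat.card {x : ClassGroup (𝓞 K) // x ^ l = 1}

/-- The integer `n` is not the square of a rational number and `K` is the quadratic field `ℚ(√n)`. -/
def QuadraticField (n : ℤ) (K : Type) [Field K] [NumberField K] : Prop :=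
  Module.finrank ℚ K = 2 ∧ ¬ IsSquare (n : ℚ) ∧ IsSquare ((n : ℤ) : K)

/-- Let `f` be a polynomial of degree `d ≥ 1` with integer coefficients, not of the form `c g²` with
`c ∈ ℚ`, `g ∈ ℚ[X]`; let `l, r ≥ 1` be natural numbers and `ε > 0`.

* For every `m ≥ 1` there is a constant `C` such that for all real `N ≥ 1`, `1 ≤ y ≤ N`, `Y ≥ 1` and
  for quadratic fields `K_t = ℚ(√f(t))`, where `t` runs through a finite set `S` of integers with
  `N ≤ |t| ≤ 2 N` and with `|f(t)| ≤ Y² |disc K_t|`,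
  `∑_{t ∈ S} |Cl(K_t)[l]| ^ r ≤
    C N ^ ε √(N ^ d) ^ r (|S| / y ^ r + Y (y ^ l / √(N ^ d)) √N + N / y ^ m + y ^ (2 m))`.
* There is a constant `C` such that for `T ≥ 1` and quadratic fields `K_t = ℚ(√f(t))` with `|t| ≤ T`
  `∑_{t ∈ S} |Cl(K_t)[l]| ^ r ≤ C T ^ (1 + r (d / 2 - θ) + ε)`,
  `θ = min (1 / (3 r)) ((d + 1) / (2 (l + r + 1)))`.
* There is a constant `C` such that for `T, Y ≥ 1` and quadratic fields `K_t = ℚ(√f(t))` with
  `|t| ≤ T` and `|f(t)| ≤ Y² |disc K_t|` (for example `disc K_t = f(t)`, `Y = 1`)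
  `∑_{t ∈ S} |Cl(K_t)[l]| ^ r ≤ C Y T ^ (1 + r (d / 2 - θ) + ε)`,
  `θ = min (1 / (3 r)) ((d + 1) / (2 (l + r)))`. -/
theorem result (f : ℤ[X]) (hf : 1 ≤ f.natDegree)
    (hns : ∀ (c : ℚ) (g : ℚ[X]), f.map (Int.castRingHom ℚ) ≠ C c * g ^ 2)
    (l r : ℕ) (hl : 1 ≤ l) (hr : 1 ≤ r) (ε : ℝ) (hε : 0 < ε) :
    (∀ m : ℕ, 1 ≤ m → ∃ A : ℝ, 0 < A ∧ ∀ N y Y : ℝ, 1 ≤ N → 1 ≤ y → y ≤ N → 1 ≤ Y →
      ∀ (S : Finset ℤ) (K : ℤ → Type) [∀ t, Field (K t)] [∀ t, NumberField (K t)],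
      (∀ t ∈ S, (N ≤ |(t : ℝ)| ∧ |(t : ℝ)| ≤ 2 * N) ∧ QuadraticField (f.eval t) (K t) ∧
        |((f.eval t : ℤ) : ℝ)| ≤ Y ^ 2 * |(discr (K t) : ℝ)|) →
      ∑ t ∈ S, (tors (K t) l : ℝ) ^ r ≤
        A * N ^ ε * Real.sqrt (N ^ f.natDegree) ^ r *
          (S.card / y ^ r + Y * (y ^ l / Real.sqrt (N ^ f.natDegree)) * Real.sqrt N + N / y ^ m +
            y ^ (2 * m))) ∧
    (∃ A : ℝ, 0 < A ∧ ∀ T : ℝ, 1 ≤ T →
      ∀ (S : Finset ℤ) (K : ℤ → Type) [∀ t, Field (K t)] [∀ t, NumberField (K t)],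
      (∀ t ∈ S, |(t : ℝ)| ≤ T ∧ QuadraticField (f.eval t) (K t)) →
      ∑ t ∈ S, (tors (K t) l : ℝ) ^ r ≤
        A * T ^ (1 + r * ((f.natDegree : ℝ) / 2 -
          min (1 / (3 * (r : ℝ))) (((f.natDegree : ℝ) + 1) / (2 * ((l : ℝ) + r + 1)))) + ε)) ∧
    (∃ A : ℝ, 0 < A ∧ ∀ T Y : ℝ, 1 ≤ T → 1 ≤ Y →
      ∀ (S : Finset ℤ) (K : ℤ → Type) [∀ t, Field (K t)] [∀ t, NumberField (K t)],
      (∀ t ∈ S, |(t : ℝ)| ≤ T ∧ QuadraticField (f.eval t) (K t) ∧
        |((f.eval t : ℤ) : ℝ)| ≤ Y ^ 2 * |(discr (K t) : ℝ)|) →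
      ∑ t ∈ S, (tors (K t) l : ℝ) ^ r ≤
        A * Y * T ^ (1 + r * ((f.natDegree : ℝ) / 2 -
          min (1 / (3 * (r : ℝ))) (((f.natDegree : ℝ) + 1) / (2 * ((l : ℝ) + r)))) + ε)) := by
  have hr0 : (0 : ℝ) < r := by exact_mod_cast hr
  have hl0 : (0 : ℝ) < l := by exact_mod_cast hl
  refine ⟨fun m hm => Pool.Agent.J6H11.PF.part1 f hf hns l r m hl hr hm ε hε, ?_, ?_⟩
  · have h1 : (0 : ℝ) < 1 / (3 * r) := by positivity
    have h2 : (0 : ℝ) < (f.natDegree + 1) / (2 * (l + r + 1)) := by positivity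
    exact Pool.Agent.J6H11.PF.mom2 f hf hns l r hl hr ε hε _ (lt_min h1 h2)
      ((le_div_iff₀ (by positivity)).1 (min_le_left _ _))
      ((le_div_iff₀ (by positivity)).1 (min_le_right _ _))
  · have h1 : (0 : ℝ) < 1 / (3 * r) := by positivity
    have h2 : (0 : ℝ) < (f.natDegree + 1) / (2 * (l + r)) := by positivity
    exact Pool.Agent.J6H11.PF.mom3 f hf hns l r hl hr ε hε _ (lt_min h1 h2)
      ((le_div_iff₀ (by positivity)).1 (min_le_left _ _))
      ((le_div_iff₀ (by positivity)).1 (min_le_right _ _))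

end Pool.Agent.Results.MP_16912e_nt.PolynomialFamilies
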