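import Pool.Agent.J6H45.WF.Tors

/-!
# Torsion of the class groups of all quadratic fields with discriminant near almost all orbits of Euler's function

Let `φ_j` be the `j`-th iterate of Euler's function `φ` (`φ_0(m) = m`) and `g` a multiplicative function of the class `LM`, for
example the identity, `φ` or the sum of the divisors. The values `g(φ_j(m))`, `j ≥ 1`, form a thin set and are taken with very large
multiplicities, so that a statement about almost all discriminants says nothing about them.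

Let `l`, `r ≥ 1` be integers with `7 r ≤ 2 l`, for example `r = 1`, `l ≥ 4`, or `r = 2`, `l = 7`; let `0 ≤ c ≤ 1 / 2` and
`s = 1 - r (3 / (2 (l + r)) - c)`. Let `G (v + 1) - G (v) ≥ a > 0` and `G (v) ≤ K v ^ d`, for example `G (v) = v`, `d = 1`, and let
`κ ≥ 0`, `d s + κ < 1`. We prove: for all `J` and `ε > 0`, for all large `N` and all `m ≤ N` but at most `ε N`, for all `j ≤ J`, with
`v = g(φ_j(m))`, ALL quadratic fields `K`, real or imaginary, with `| |disc K| - G (v) | ≤ v ^ κ` satisfy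
`|Cl(K)[l]| ≤ |disc K| ^ (1 / 2 - c)`, where `Cl(K)[l]` is the set of the ideal classes killed by `l`.

For example (`l = 7`, `r = 2`, `G (v) = v`): for almost all `m` and all `j ≤ J` all quadratic fields with
`| |disc K| - φ_j(m) | ≤ φ_j(m) ^ κ`, `κ < 1 / 3 - 2 c`, have at most `|disc K| ^ (1 / 2 - c)` ideal classes killed by `7`
(`0 ≤ c < 1 / 6`).

Proof. The bound of the starting theorem `QuadraticShortIntervals` for the moment of order `r` of `|Cl(K)[l]|` shows that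
the discriminants with `|Cl(K)[l]| > |disc K| ^ (1 / 2 - c)` are sparse: there are `O (X ^ (s + δ))` up to `X`
(`Pool.Agent.J6H45.WF.sparse_torsion`). The preimages of such sets, and of windows around their elements, under `g ∘ φ_j` have
density zero (`Pool.Agent.J6H45.WF.orbit`, from helper760's lemma `Pool.Agent.N760.IT.densW`).
-/

set_option autoImplicit false

namespace Pool.Agent.Results.MP_16912e_nt.TorsionNearOrbits

open NumberField
open Pool.Agent.N733.TG (LM Expanding lm_totient lm_sigma expanding_pow)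
open Pool.Agent.N760.IT (orb lm_id)

/-- **Torsion of the class groups of the quadratic fields near the orbits of Euler's function.** (1) Let `l, r ≥ 1`,
`7 r ≤ 2 l`, `0 ≤ c ≤ 1 / 2`. For all multiplicative functions `g` of the class `LM`, all `G` which are expanding of order `d`, all
`κ ≥ 0` with `d (1 - r (3 / (2 (l + r)) - c)) + κ < 1`, all `J`, `ε > 0` and all large `N`: for all `m ≤ N` but `ε N`, all `j ≤ J`, with
`v = g(φ_j(m))` (`orb g j m`), all quadratic fields `K` with `| |disc K| - G v | ≤ v ^ κ` have at most `|disc K| ^ (1 / 2 - c)` ideal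
classes killed by `l`. (2) The identity, Euler's function and the sum of the divisors are in the class `LM`, and `α v ^ d`
(`α > 0`, `d ≥ 1`) is expanding of order `d`. -/
theorem result :
    (∀ l r : ℕ, 1 ≤ l → 1 ≤ r → 7 * r ≤ 2 * l → ∀ c : ℝ, 0 ≤ c → c ≤ 1 / 2 → ∀ g : ℕ → ℕ, LM g →
      ∀ (G : ℕ → ℝ) (d : ℝ), Expanding G d → ∀ κ : ℝ, 0 ≤ κ →
        d * (1 - r * (3 / (2 * ((l : ℝ) + r)) - c)) + κ < 1 → ∀ (J : ℕ) (ε : ℝ), 0 < ε → ∃ N₀ : ℕ, ∀ N : ℕ, N₀ ≤ N →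
          ({m : ℕ | 1 ≤ m ∧ m ≤ N ∧ ¬ ∀ j ≤ J, ∀ (K : Type) [Field K] [NumberField K], Module.finrank ℚ K = 2 →
            |(|(discr K : ℝ)|) - G (orb g j m)| ≤ (orb g j m : ℝ) ^ κ →
              (Nat.card {x : ClassGroup (𝓞 K) // x ^ l = 1} : ℝ) ≤ |(discr K : ℝ)| ^ (1 / 2 - c)}.ncard : ℝ) ≤ ε * N) ∧
    (LM (fun m => m) ∧ LM Nat.totient ∧ LM (fun m => ∑ d ∈ m.divisors, d)) ∧
    (∀ α d : ℝ, 0 < α → 1 ≤ d → Expanding (fun v : ℕ => α * (v : ℝ) ^ d) d) := by
  refine ⟨fun l r hl hr h7 c hc hc2 g hg G d hG κ hκ h1 J ε hε => ?_, ⟨lm_id, lm_totient, lm_sigma⟩,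
    fun α d hα hd => expanding_pow hα hd⟩
  have hd : 1 ≤ d := hG.one_le
  obtain ⟨s₀, hs₀⟩ : ∃ s₀ : ℝ, s₀ = 1 - r * (3 / (2 * ((l : ℝ) + r)) - c) := ⟨_, rfl⟩
  rw [← hs₀] at h1
  obtain ⟨η, hη⟩ : ∃ η : ℝ, η = (1 - (d * s₀ + κ)) / (2 * d) := ⟨_, rfl⟩
  have hη0 : 0 < η := by
    rw [hη]
    exact div_pos (by linarith) (by linarith)
  have hdη : d * η = (1 - (d * s₀ + κ)) / 2 := by
    rw [hη]
    field_simp
  have hs00 : 0 ≤ s₀ := by
    have hl1 : (1 : ℝ) ≤ l := by exact_mod_cast hl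
    have hr1 : (1 : ℝ) ≤ r := by exact_mod_cast hr
    have h7' : (7 : ℝ) * r ≤ 2 * l := by exact_mod_cast h7
    have hlr : (0 : ℝ) < 2 * ((l : ℝ) + r) := by linarith
    have hq : r * (3 / (2 * ((l : ℝ) + r))) ≤ 1 / 3 := by
      rw [mul_div_assoc', div_le_div_iff₀ hlr (by norm_num)]
      linarith
    rw [hs₀]
    nlinarith
  obtain ⟨K₀, hK₀⟩ := Pool.Agent.J6H45.WF.sparse_torsion hl hr h7 hc hc2 (s := s₀ + η) (by rw [← hs₀]; linarith)
  obtain ⟨N₀, hN₀⟩ := Pool.Agent.J6H45.WF.orbit hg hG (s := s₀ + η) (κ := κ) (by linarith) hκ (by linarith) K₀ J ε hε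
  refine ⟨N₀, fun N hN => le_trans ?_ (hN₀ N hN _ hK₀)⟩
  have hfin : {m : ℕ | 1 ≤ m ∧ m ≤ N ∧ ¬ ∀ k ≤ J, Pool.Agent.J6H45.WF.NearV G κ
      (Pool.Agent.J6H45.WF.TorsionAt l c) (orb g k m)}.Finite :=
    (Set.finite_Icc 1 N).subset fun m hm => ⟨hm.1, hm.2.1⟩
  have hsub : {m : ℕ | 1 ≤ m ∧ m ≤ N ∧ ¬ ∀ j ≤ J, ∀ (K : Type) [Field K] [NumberField K], Module.finrank ℚ K = 2 →
      |(|(discr K : ℝ)|) - G (orb g j m)| ≤ (orb g j m : ℝ) ^ κ →
        (Nat.card {x : ClassGroup (𝓞 K) // x ^ l = 1} : ℝ) ≤ |(discr K : ℝ)| ^ (1 / 2 - c)} ⊆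
      {m : ℕ | 1 ≤ m ∧ m ≤ N ∧ ¬ ∀ k ≤ J, Pool.Agent.J6H45.WF.NearV G κ
      (Pool.Agent.J6H45.WF.TorsionAt l c) (orb g k m)} := by
    rintro m ⟨hm1, hmN, hm⟩
    refine ⟨hm1, hmN, fun h => hm fun j hj K _ _ hK hw => ?_⟩
    have e1 : (((discr K).natAbs : ℕ) : ℝ) = |(discr K : ℝ)| := by rw [Nat.cast_natAbs, Int.cast_abs]
    have hD1 : 1 ≤ (discr K).natAbs := Nat.one_le_iff_ne_zero.2 (Int.natAbs_ne_zero.2 (discr_ne_zero K))
    have h2 := h j hj (discr K).natAbs hD1 (by rw [e1]; exact hw) K hK rfl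
    rwa [e1] at h2
  exact_mod_cast Set.ncard_le_ncard hsub hfin

end Pool.Agent.Results.MP_16912e_nt.TorsionNearOrbits
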